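import Pool.Agent.Helper771.FreeNilp

set_option autoImplicit false

namespace Pool.Agent.Results.MP_3d7de8_lc.SolvableHomogeneous

open Pool.Agent.Helper771.FreeNilp

universe u

/-- Full answer to Q2: for every field `K` and all `n, r ≥ 1`, the free `n`-solvable
associative `K`-algebra of rank `r` is logically homogeneous. -/
theorem result (K : Type u) [Field K] (n r : ℕ) (_hn : 1 ≤ n) (_hr : 1 ≤ r)
    (F : Type u) [NonUnitalRing F] [Module K F] [IsScalarTower K F F] [SMulCommClass K F F]
    (x : Fin r → F) (hF : IsFreeSolv K n r F x) : LogicallyHomogeneous K F :=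
  hF.homogeneous

end Pool.Agent.Results.MP_3d7de8_lc.SolvableHomogeneous
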